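import Mathlib
import Pool.Graph.R_seed8.Helper155.Stage4
import Pool.Graph.R_seed8.Helper155.Small

/-!
# MP_241678_nt: every `m ≡ 0, 1 (mod 3)` is reachable from `1` in `O(log² m)` steps

The finite certificates, the path calculus and the exit lemmas are those of the library's proof
(modules Helper155.Basic-Stage4, Small; imported). `posG`, `posN`, `TC_all`, `down_big` are adapted
copies of the same lemmas of its module Stage5: the number of divisions is tracked and the new value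
is at most `399/400` of the old one.
-/

set_option autoImplicit false

namespace Pool.Agent.Results.MP_241678_nt.LogSquaredPaths

open Pool.Agent.Helper155.IZ

/-- `w` reaches something smaller by the factor `399/400`, with at most `B` divisions -/
def DownB (w B : ℕ) : Prop :=
  ∃ z a b : ℕ, 1 ≤ z ∧ 400*z ≤ 399*w ∧ b ≤ B ∧ P a b (w:ℤ) (z:ℤ)

/-- bound for the divisions in one round -/
def LL (w : ℕ) : ℕ := Nat.log 3 w + 7

def TC (w r : ℕ) : Prop :=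
  ∀ (a0 b0 v : ℕ) (e : ℚ), 1/2 ≤ e → e < 1 → 1 ≤ v → ¬ 3 ∣ v →
    Opt (w:ℤ) a0 b0 (v:ℤ) e → (10000:ℚ)*v ≤ Cr r*e*w → DownB w (b0 + r*LL w + 8)

/-- good leaf, positive side -/
theorem posG {w : ℕ} (hw : 400 ≤ w) {a0 b0 v : ℕ} {A B f : ℕ} (hB : 0 < B)
    (hf : 1 ≤ f) {d W' b a1 N : ℕ} {y : ℤ} (hv : 8 ≤ v) (hW' : W' ≤ 7)
    (hP0 : P (a0+d) b0 (w:ℤ) (2^d*(v:ℤ)-W'))
    (hb : b ≤ 8) (hP : P a1 b (2^d*(v:ℤ)-W') y)
    (hval : 3^b*y = 2^a1*(2^d*(v:ℤ)-W') + N)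
    (h2 : A*20*2^(d+a1) ≤ 19*3^b*10000*B)
    (h3 : f*27*N*10 ≤ 13*b*25*2^(a1+d))
    (hsz : (10000:ℚ)*B*v ≤ A*w) (hA2 : 5000*B ≤ A) : DownB w (b0 + 8) := by
  have hpd : (1:ℤ) ≤ 2^d := one_le_pow₀ (by norm_num)
  have hz0 : 0 < (2:ℤ)^d*(v:ℤ)-W' := by
    have : (v:ℤ) ≤ 2^d*v := by nlinarith
    omega
  have hy0 := hP.pos hz0
  obtain ⟨Y, hY⟩ : ∃ Y : ℕ, y = (Y:ℤ) := ⟨y.toNat, by omega⟩
  subst hY
  refine ⟨Y, _, _, by omega, ?_, by omega, hP0.trans hP⟩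
  have hvalq : (3:ℚ)^b*(Y:ℚ) = 2^a1*(2^d*(v:ℚ)-W') + N := by exact_mod_cast hval
  have h3bq : (0:ℚ) < 3^b := by positivity
  have hBq : (0:ℚ) < B := by exact_mod_cast hB
  have h2q : (A:ℚ)*20*2^(d+a1) ≤ 19*3^b*10000*B := by exact_mod_cast h2
  have e1 : (2:ℚ)^(d+a1) = 2^(a1+d) := by rw [add_comm]
  rw [e1] at h2q
  have hbq : (b:ℚ) ≤ 8 := by exact_mod_cast hb
  have hwq : (400:ℚ) ≤ w := by exact_mod_cast hw
  have hA2q : (5000:ℚ)*B ≤ A := by exact_mod_cast hA2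
  -- 2^(a1+d) ≤ 1.9 * 3^b
  have hpow : (2:ℚ)^(a1+d) ≤ 19/10*3^b := by
    have h5 : (5000:ℚ)*B*(20*2^(a1+d)) ≤ A*(20*2^(a1+d)) :=
      mul_le_mul_of_nonneg_right hA2q (by positivity)
    have h6 : (100000*B)*(2:ℚ)^(a1+d) ≤ (100000*B)*(19/10*3^b) := by linarith
    exact le_of_mul_le_mul_left h6 (by positivity)
  have hN : (N:ℚ) ≤ 10*2^(a1+d) := by
    have h5 : 1*27*N*10 ≤ 13*b*25*2^(a1+d) := by
      refine le_trans ?_ h3
      gcongr
    have h6 : (270:ℚ)*N ≤ 325*b*2^(a1+d) := by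
      have : (1:ℚ)*27*N*10 ≤ 13*b*25*2^(a1+d) := by exact_mod_cast h5
      linarith
    have h7 : (325:ℚ)*b*2^(a1+d) ≤ 325*8*2^(a1+d) := by
      apply mul_le_mul_of_nonneg_right _ (by positivity)
      linarith
    have h8 : (0:ℚ) < 2^(a1+d) := by positivity
    linarith
  -- main part
  have hmain : (20:ℚ)*(2^(a1+d)*v) ≤ 19*3^b*w := by
    have : (10000*B)*((20:ℚ)*(2^(a1+d)*v)) ≤ (10000*B)*(19*3^b*w) := by
      calc (10000*B)*((20:ℚ)*(2^(a1+d)*v)) = (20*2^(a1+d))*(10000*B*v) := by ring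
        _ ≤ (20*2^(a1+d))*(A*w) := by
            apply mul_le_mul_of_nonneg_left hsz; positivity
        _ = (A*20*2^(a1+d))*w := by ring
        _ ≤ (19*3^b*10000*B)*w := by
            apply mul_le_mul_of_nonneg_right h2q; positivity
        _ = _ := by ring
    exact le_of_mul_le_mul_left this (by positivity)
  have hY : (3:ℚ)^b*Y ≤ 3^b*(19/20*w+19) := by
    rw [hvalq]
    have h9 : (0:ℚ) ≤ 2^a1*W' := by positivity
    have e2 : (2:ℚ)^a1*(2^d*(v:ℚ)-W') + N = 2^(a1+d)*v - 2^a1*W' + N := by ring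
    rw [e2]
    linarith
  have h10 : (Y:ℚ) ≤ 19/20*w+19 := le_of_mul_le_mul_left hY h3bq
  have h11 : (400:ℚ)*Y ≤ 399*w := by linarith
  exact_mod_cast h11

/-- near leaf, positive side -/
theorem posN {w r' : ℕ} (hw : 400 ≤ w) {a0 b0 v : ℕ} {A B f : ℕ} (hB : 0 < B)
    (hf : 1 ≤ f) {d W' b a1 N X : ℕ} {y : ℤ} (hv : 8 ≤ v) (hW' : W' ≤ 7)
    (hP0 : P (a0+d) b0 (w:ℤ) (2^d*(v:ℤ)-W'))
    (hb : b ≤ 3) (hX6 : i0 X ≤ 6) (hP : P a1 b (2^d*(v:ℤ)-W') y)
    (hval : 3^b*y = 2^a1*(2^d*(v:ℤ)-W') + N)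
    (hdiv : (3:ℤ)^(i0 X) ∣ y + X)
    (h2 : 729*A*2^(d+a1) ≤ Cr r'*X*3^b*625*B)
    (h3 : f*27*(N+3^b*X)*10 ≤ 13*(b+i0 X)*25*2^(a1+d))
    (hsz : (10000:ℚ)*B*v ≤ A*w) (hA2 : 5000*B ≤ A) (hTC : TC w r') :
    DownB w (b0 + (r'+1)*LL w + 8) := by
  obtain ⟨hX1, hX2, hX3, hi03⟩ := special hX6
  have hpd : (1:ℤ) ≤ 2^d := one_le_pow₀ (by norm_num)
  have hz0 : 0 < (2:ℤ)^d*(v:ℤ)-W' := by
    have : (v:ℤ) ≤ 2^d*v := by nlinarith
    omega
  have hy0 := hP.pos hz0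
  obtain ⟨D, hD⟩ : ∃ D : ℕ, y = -(X:ℤ) + (D:ℤ) := ⟨(y+X).toNat, by omega⟩
  have hD1 : D ≠ 0 := by omega
  obtain ⟨i, τ, hτ, hDi⟩ := Nat.exists_eq_pow_mul_and_not_dvd hD1 3 (by norm_num)
  have hτ1 : 1 ≤ τ := by
    rcases Nat.eq_zero_or_pos τ with h | h
    · subst h; simp at hτ
    · exact h
  have hi0i : i0 X ≤ i := by
    have h5 : (3:ℤ)^(i0 X) ∣ (D:ℤ) := by
      have : y + X = (D:ℤ) := by rw [hD]; ring
      rwa [this] at hdiv
    have h6 : 3^(i0 X) ∣ D := by exact_mod_cast h5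
    rw [hDi] at h6
    have hcop : Nat.Coprime (3^(i0 X)) τ :=
      Nat.Coprime.pow_left _ ((Nat.Prime.coprime_iff_not_dvd Nat.prime_three).mpr hτ)
    have h7 := hcop.dvd_of_dvd_mul_right h6
    exact (Nat.pow_dvd_pow_iff_le_right (by norm_num)).mp h7
  have hF := KF_all i X hX6 hi0i
  have hPy := hP0.trans hP
  obtain ⟨a', e, he1, he2, heX, hOpt⟩ := near_exit (t := (τ:ℤ)) hX1 hX2 (by omega) hPy
    (by rw [hD, hDi]; push_cast; ring) hF
  set v' : ℕ := 2^a'*τ with hv'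
  have hVv' : (2:ℤ)^a'*((τ:ℤ)) = (v':ℤ) := by rw [hv']; push_cast; ring
  rw [hVv'] at hOpt
  have hv'1 : 1 ≤ v' := by rw [hv']; exact Nat.mul_pos (by positivity) hτ1
  have hv'3 : ¬ 3 ∣ v' := by
    intro h
    rw [hv'] at h
    have hcop : Nat.Coprime 3 (2^a') := Nat.Coprime.pow_right _ (by norm_num)
    exact hτ (hcop.dvd_of_dvd_mul_left h)
  have hpi : (0:ℚ) < 3^i := by positivity
  have hpa' : (0:ℚ) < 2^a' := by positivity
  suffices hs : (270000:ℚ)*D ≤ 25*Cr r'*X*w ∧ (10000:ℚ)*v' ≤ Cr r'*e*w by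
    obtain ⟨z, a, b', q1, q2, q3, q4⟩ := hTC _ _ v' e he1 he2 hv'1 hv'3 hOpt hs.2
    refine ⟨z, a, b', q1, q2, q3.trans ?_, q4⟩
    have t1 : 270000*D ≤ 25*Cr r'*X*w := by exact_mod_cast hs.1
    have t2 : 25*Cr r'*X*w ≤ 25*23328*13*w := by
      have := Cr_le r'
      gcongr
    have t3 : 3^i ≤ D := by rw [hDi]; exact Nat.le_mul_of_pos_right _ hτ1
    have t4 : w < 3^(Nat.log 3 w + 1) := Nat.lt_pow_succ_log_self (by norm_num) w
    have t5 : 3^i < 3^(Nat.log 3 w + 5) := by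
      have : 3^(Nat.log 3 w + 5) = 81*3^(Nat.log 3 w + 1) := by ring
      omega
    have t6 : i < Nat.log 3 w + 5 := (Nat.pow_lt_pow_iff_right (by norm_num)).mp t5
    have t7 : (r'+1)*LL w = r'*LL w + LL w := by ring
    have t8 : LL w = Nat.log 3 w + 7 := rfl
    omega
  -- size
  have hvalq : (3:ℚ)^b*(y:ℚ) = 2^a1*(2^d*(v:ℚ)-W') + N := by exact_mod_cast hval
  have h3bq : (0:ℚ) < 3^b := by positivity
  have hBq : (0:ℚ) < B := by exact_mod_cast hB
  have h2q : (729:ℚ)*A*2^(d+a1) ≤ Cr r'*X*3^b*625*B := by exact_mod_cast h2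
  have e1 : (2:ℚ)^(d+a1) = 2^(a1+d) := by rw [add_comm]
  rw [e1] at h2q
  have hwq : (400:ℚ) ≤ w := by exact_mod_cast hw
  have hA2q : (5000:ℚ)*B ≤ A := by exact_mod_cast hA2
  set CX : ℚ := Cr r'*X*3^b with hCX
  have hCX0 : 0 ≤ CX := by positivity
  -- 2^(a1+d) bound
  have hpow : (2:ℚ)^(a1+d)*5832 ≤ CX := by
    have h5 : (5000:ℚ)*B*(729*2^(a1+d)) ≤ A*(729*2^(a1+d)) :=
      mul_le_mul_of_nonneg_right hA2q (by positivity)
    have h6 : (625*B)*((2:ℚ)^(a1+d)*5832) ≤ (625*B)*CX := by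
      rw [hCX]; linarith
    exact le_of_mul_le_mul_left h6 (by positivity)
  have hN : (270:ℚ)*((N:ℚ)+3^b*X) ≤ 325*9*2^(a1+d) := by
    have h5 : 1*27*(N+3^b*X)*10 ≤ 13*(b+i0 X)*25*2^(a1+d) := by
      refine le_trans ?_ h3
      gcongr
    have h6 : 13*(b+i0 X)*25*2^(a1+d) ≤ 13*9*25*2^(a1+d) := by
      gcongr
      omega
    have h7 : 270*(N+3^b*X) ≤ 325*9*2^(a1+d) := by omega
    exact_mod_cast h7
  have hmain : (10000:ℚ)*729*(2^(a1+d)*v) ≤ 625*CX*w := by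
    have : (B:ℚ)*((10000:ℚ)*729*(2^(a1+d)*v)) ≤ B*(625*CX*w) := by
      calc (B:ℚ)*((10000:ℚ)*729*(2^(a1+d)*v)) = (729*2^(a1+d))*(10000*B*v) := by ring
        _ ≤ (729*2^(a1+d))*(A*w) := by
            apply mul_le_mul_of_nonneg_left hsz; positivity
        _ = (729*A*2^(a1+d))*w := by ring
        _ ≤ (Cr r'*X*3^b*625*B)*w := by
            apply mul_le_mul_of_nonneg_right h2q; positivity
        _ = _ := by rw [hCX]; ring
    exact le_of_mul_le_mul_left this hBq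
  have hDq : (3:ℚ)^b*D ≤ 2^(a1+d)*v + (N+3^b*X) := by
    have e2 : (D:ℚ) = y + X := by
      have : (y:ℚ) = -(X:ℚ) + D := by exact_mod_cast hD
      linarith
    have h9 : (0:ℚ) ≤ 2^a1*W' := by positivity
    rw [e2, mul_add, hvalq]
    have e3 : (2:ℚ)^a1*(2^d*(v:ℚ)-W') + N + 3^b*X = 2^(a1+d)*v - 2^a1*W' + (N + 3^b*X) := by ring
    rw [e3]; linarith
  have hD270 : (270000:ℚ)*D ≤ 25*Cr r'*X*w := by
    have : (3:ℚ)^b*(270000*D) ≤ 3^b*(25*Cr r'*X*w) := by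
      have e4 : (3:ℚ)^b*(25*Cr r'*X*w) = 25*(CX*w) := by rw [hCX]; ring
      rw [e4]
      have h5 : (3:ℚ)^b*(270000*D) ≤ 270000*(2^(a1+d)*v) + 1000*(270*((N:ℚ)+3^b*X)) := by
        linarith
      have h6 : (270000:ℚ)*(2^(a1+d)*v) ≤ (625/27)*(CX*w) := by linarith
      have h7 : 1000*(270*((N:ℚ)+3^b*X)) ≤ 1000*(325*9*(CX/5832)) := by
        have : (2:ℚ)^(a1+d) ≤ CX/5832 := by
          rw [le_div_iff₀ (by norm_num)]; exact hpow
        linarith
      have h8 : CX*400 ≤ CX*w := mul_le_mul_of_nonneg_left hwq hCX0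
      linarith
    exact le_of_mul_le_mul_left this h3bq
  have hvD : (v':ℚ)*3^i = 2^a'*D := by
    have e1 : (v':ℚ) = 2^a'*τ := by rw [hv']; push_cast; ring
    have e2 : (D:ℚ) = 3^i*τ := by rw [hDi]; push_cast; ring
    rw [e1, e2]; ring
  refine ⟨hD270, ?_⟩
  have key : (10000*(v':ℚ))*3^i ≤ (Cr r'*e*w)*3^i := by
    calc (10000*(v':ℚ))*3^i = 10000*(2^a'*D) := by rw [← hvD]; ring
      _ = 1/27*2^a'*(270000*D) := by ring
      _ ≤ 1/27*2^a'*(25*Cr r'*X*w) := by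
          apply mul_le_mul_of_nonneg_left hD270; positivity
      _ = (25/27)*Cr r'*w*(2^a'*X) := by ring
      _ = _ := by rw [← heX]; ring
  exact le_of_mul_le_mul_right key hpi

theorem TC_all {w : ℕ} (hw : 400 ≤ w) (r : ℕ) (hr : r ≤ 18) : TC w r := by
  induction r with
  | zero =>
    intro a0 b0 v e he1 he2 hv1 hv3 hOpt hsize
    exfalso
    have : Cr 0 = 0 := rfl
    rw [this] at hsize
    have hvq : (1:ℚ) ≤ v := by exact_mod_cast hv1
    simp at hsize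
    linarith
  | succ r ih =>
    have ih := ih (by omega)
    intro a0 b0 v e he1 he2 hv1 hv3 hOpt hsize
    have hV3 : ¬ (3:ℤ) ∣ (v:ℤ) := by omega
    by_cases hvw : 400*v ≤ 399*w
    · have h1 : P (a0+0) b0 (w:ℤ) (2^0*((v:ℤ)) - (0:ℕ)) := by
        apply hOpt 0 0 ⟨by omega, by omega, fun _ => rfl, fun h => by omega⟩
        · push_cast; linarith
        · simpa using hV3
      have e1 : (2:ℤ)^0*((v:ℤ)) - ((0:ℕ):ℤ) = (v:ℤ) := by simp
      rw [e1] at h1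
      exact ⟨v, _, _, hv1, hvw, by omega, h1⟩
    · push Not at hvw
      have hwq : (0:ℚ) ≤ w := Nat.cast_nonneg w
      have hCrp := Cr_pos (r := r+1) (by omega) hr
      have hCrq0 : (0:ℚ) ≤ Cr (r+1) := Nat.cast_nonneg _
      set m : ℕ := ⌊16*e⌋₊ with hm
      have he16 : (0:ℚ) ≤ 16*e := by linarith
      have hm1 : (m:ℚ) ≤ 16*e := Nat.floor_le he16
      have hm2 : 16*e < m + 1 := Nat.lt_floor_add_one _
      have hm8 : 8 ≤ m := by
        rw [hm]; apply Nat.le_floor; push_cast; linarith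
      have hm16 : m < 16 := by
        have : (m:ℚ) < 16 := by linarith
        exact_mod_cast this
      have hsz : (10000:ℚ)*(16:ℕ)*v ≤ ((Cr (r+1)*(m+1):ℕ):ℚ)*w := by
        have h5 : (Cr (r+1):ℚ)*(16*e)*w ≤ (Cr (r+1):ℚ)*(m+1)*w := by
          apply mul_le_mul_of_nonneg_right _ hwq
          apply mul_le_mul_of_nonneg_left (le_of_lt hm2) hCrq0
        push_cast
        calc (10000:ℚ)*16*v = 16*(10000*v) := by ring
          _ ≤ 16*(Cr (r+1)*e*w) := by linarith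
          _ = (Cr (r+1):ℚ)*(16*e)*w := by ring
          _ ≤ _ := h5
      have hA2 : 5000*16 ≤ Cr (r+1)*(m+1) := by
        calc 5000*16 ≤ 9500*9 := by norm_num
          _ ≤ Cr (r+1)*(m+1) := Nat.mul_le_mul hCrp (by omega)
      rcases state_out (r := r+1) (by omega) hr hm8 hm16 (v:ℤ) hV3 with h | h
      · obtain ⟨d, W', b, a1, N, y, hopt, hz, hb, had, hP, hval, hc1, hc2⟩ := h
        obtain ⟨hok, hopt2⟩ := optS_okO hopt
        have hoi := opt_ineq hopt2 hok.1 hm1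
        have hP0 := hOpt d W' hok hoi hz
        obtain ⟨z, a, b', q1, q2, q3, q4⟩ := posG hw (by norm_num) le_rfl (by omega) hok.2.1 hP0 hb
          hP hval hc1 hc2 hsz hA2
        exact ⟨z, a, b', q1, q2, by omega, q4⟩
      · obtain ⟨d, W', b, a1, N, X, y, hopt, hz, hb, had, hX6, hP, hval, hdiv, hc1, hc2⟩ := h
        obtain ⟨hok, hopt2⟩ := optS_okO hopt
        have hoi := opt_ineq hopt2 hok.1 hm1
        have hP0 := hOpt d W' hok hoi hz
        exact posN hw (by norm_num) le_rfl (by omega) hok.2.1 hP0 hb hX6 hP hval hdiv hc1 hc2 hsz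
          hA2 ih

theorem down_big {w : ℕ} (hw : 400 ≤ w) (hw3 : ¬ 3 ∣ w) : DownB w (19*LL w + 8) := by
  have hV3 : ¬ (3:ℤ) ∣ (w:ℤ) := by omega
  have hsz : (10000:ℚ)*(1:ℕ)*w ≤ ((10000:ℕ):ℚ)*w := by push_cast; linarith
  have hP0 : P (0+0) 0 (w:ℤ) (2^0*(w:ℤ) - ((0:ℕ):ℤ)) := by
    have e1 : (2:ℤ)^0*(w:ℤ) - ((0:ℕ):ℤ) = (w:ℤ) := by simp
    rw [e1]; exact P.refl _
  rcases start_out (w:ℤ) hV3 with h | h
  · obtain ⟨d, W', b, a1, N, y, hopt, hz, hb, had, hP, hval, hc1, hc2⟩ := h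
    obtain ⟨hd0, hW0⟩ := opt0_eq hopt
    subst hd0; subst hW0
    obtain ⟨z, a, b', q1, q2, q3, q4⟩ := posG hw (by norm_num) (by norm_num) (by omega) (by omega)
      hP0 hb hP hval hc1 hc2 hsz (by norm_num)
    exact ⟨z, a, b', q1, q2, by omega, q4⟩
  · obtain ⟨d, W', b, a1, N, X, y, hopt, hz, hb, had, hX6, hP, hval, hdiv, hc1, hc2⟩ := h
    obtain ⟨hd0, hW0⟩ := opt0_eq hopt
    subst hd0; subst hW0
    obtain ⟨z, a, b', q1, q2, q3, q4⟩ := posN hw (by norm_num) (by norm_num) (by omega) (by omega)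
      hP0 hb hX6 hP hval hdiv hc1 hc2 hsz (by norm_num) (TC_all hw 18 le_rfl)
    exact ⟨z, a, b', q1, q2, by omega, q4⟩


theorem small' (w : ℕ) (h1 : 2 ≤ w) (h2 : w < 400) (h3 : w % 3 ≠ 0) :
    ∃ z a b : ℕ, 1 ≤ z ∧ z < w ∧ b ≤ 31 ∧ P a b (w:ℤ) (z:ℤ) := by
  obtain ⟨c, hc⟩ := chkX_sound _ _ _ _ smallL_ok w h1 (by omega) h3
  obtain ⟨y, a, hP, hK⟩ := goP_sound _ _ _ _ _ hc
  simp only [Bool.and_eq_true, Nat.ble_eq] at hK
  exact ⟨y, a, _, hK.1, hK.2, by omega, hP⟩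

theorem reach_small (w : ℕ) (h1 : 1 ≤ w) (h2 : w < 400) (h3 : ¬ 3 ∣ w) :
    ∃ a b : ℕ, b ≤ 31*w ∧ P a b (w:ℤ) 1 := by
  induction w using Nat.strong_induction_on with
  | _ w ih =>
    by_cases hw1 : w = 1
    · subst hw1; exact ⟨0, 0, by omega, P.refl _⟩
    · obtain ⟨z, a, b, hz1, hzw, hb, hP⟩ := small' w (by omega) h2 (by omega)
      have hz3 : ¬ 3 ∣ z := by
        have := hP.unit (by omega)
        omega
      obtain ⟨a', b', hb', hP'⟩ := ih z hzw hz1 (by omega) hz3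
      exact ⟨_, _, by omega, hP.trans hP'⟩

set_option exponentiation.threshold 300 in
theorem pow_le : 399^278*2 ≤ 400^278 := by norm_num

/-- `w < 400 * 2 ^ k` reaches `1` with at most `31000 (k + 1) ^ 2` divisions -/
theorem reach (k : ℕ) : ∀ w : ℕ, 1 ≤ w → ¬ 3 ∣ w → w < 400*2^k →
    ∃ a b : ℕ, b ≤ 31000*(k+1)^2 ∧ P a b (w:ℤ) 1 := by
  induction k with
  | zero =>
    intro w h1 h3 h2
    obtain ⟨a, b, hb, hP⟩ := reach_small w h1 (by simpa using h2) h3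
    exact ⟨a, b, by omega, hP⟩
  | succ k ih =>
    have inner : ∀ j w : ℕ, 1 ≤ w → ¬ 3 ∣ w → w < 400*2^(k+1) → 399^j*w < 400^j*(400*2^k) →
        ∃ a b : ℕ, b ≤ 31000*(k+1)^2 + j*(19*(k+17)+8) ∧ P a b (w:ℤ) 1 := by
      intro j
      induction j with
      | zero =>
        intro w h1 h3 _ h4
        obtain ⟨a, b, hb, hP⟩ := ih w h1 h3 (by rwa [pow_zero, pow_zero, one_mul, one_mul] at h4)
        exact ⟨a, b, hb.trans (Nat.le_add_right _ _), hP⟩
      | succ j ihj =>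
        intro w h1 h3 h2 h4
        by_cases h5 : w < 400*2^k
        · obtain ⟨a, b, hb, hP⟩ := ih w h1 h3 h5
          exact ⟨a, b, hb.trans (Nat.le_add_right _ _), hP⟩
        · have h6 : 400 ≤ w := by
            have : 1 ≤ 2^k := Nat.one_le_two_pow
            omega
          obtain ⟨z, a, b, q1, q2, q3, q4⟩ := down_big h6 h3
          have hz3 : ¬ 3 ∣ z := by
            have := q4.unit (by omega)
            omega
          obtain ⟨a', b', hb', hP'⟩ := ihj z q1 hz3 (by omega) (by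
            have e1 : 399^j*(400*z) ≤ 399^j*(399*w) := Nat.mul_le_mul_left _ q2
            have e2 : 399^j*(399*w) = 399^(j+1)*w := by ring
            have e3 : 400^(j+1)*(400*2^k) = 400*(400^j*(400*2^k)) := by ring
            have e4 : 399^j*(400*z) = 400*(399^j*z) := by ring
            omega)
          refine ⟨_, _, ?_, q4.trans hP'⟩
          have hl : Nat.log 3 w ≤ k + 10 := by
            have : w < 3^(k+10) := by
              have t1 : 400*2^(k+1) < 2^(k+10) := by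
                have : 2^(k+10) = 512*2^(k+1) := by ring
                have : 1 ≤ 2^(k+1) := Nat.one_le_two_pow
                omega
              have t2 : 2^(k+10) ≤ 3^(k+10) := Nat.pow_le_pow_left (by norm_num) _
              omega
            exact (Nat.log_lt_of_lt_pow (by omega) this).le
          have hL : LL w = Nat.log 3 w + 7 := rfl
          have e5 : (j+1)*(19*(k+17)+8) = j*(19*(k+17)+8) + (19*(k+17)+8) := by ring
          omega
    intro w h1 h3 h2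
    obtain ⟨a, b, hb, hP⟩ := inner 278 w h1 h3 h2 (by
      have e1 : 399^278*2 ≤ 400^278 := pow_le
      have e2 : 399^278*w < 399^278*(400*2^(k+1)) := Nat.mul_lt_mul_of_pos_left h2 (Nat.pow_pos (by norm_num))
      have e3 : 399^278*(400*2^(k+1)) = 399^278*2*(400*2^k) := by ring
      exact (e2.trans_eq e3).trans_le (Nat.mul_le_mul_right _ e1))
    refine ⟨a, b, hb.trans ?_, hP⟩
    have e : 31000*(k+1+1)^2 = 31000*(k+1)^2 + (62000*k + 93000) := by ring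
    omega

/-- `m` is reached from `1` by exactly `l` steps `x ↦ 3 x`, `2 x + 1 ↦ x` -/
def ReachIn (l m : ℕ) : Prop :=
  ∃ p : ℕ → ℕ, p 0 = 1 ∧ p l = m ∧ ∀ i < l, p (i + 1) = 3 * p i ∨ p i = 2 * p (i + 1) + 1

theorem ReachIn.cons {l x y : ℕ} (h : ReachIn l x) (hxy : y = 3 * x ∨ x = 2 * y + 1) :
    ReachIn (l + 1) y := by
  obtain ⟨p, h0, hl, hs⟩ := h
  refine ⟨fun i => if i ≤ l then p i else y, by simpa using h0, by simp, fun i hi => ?_⟩
  rcases Nat.lt_or_ge i l with h | h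
  · simpa [h.le, Nat.succ_le_of_lt h] using hs i h
  · have : i = l := by omega
    subst this
    simpa [hl] using hxy

/-- a path in the `w` coordinates gives the reversed path in the graph -/
theorem toReach {a b : ℕ} {x y : ℤ} (h : P a b x y) (hx : 0 < x) :
    0 < y ∧ ∀ l, ReachIn l (2*y-1).toNat → ReachIn (l + (a + b)) (2*x-1).toNat := by
  induction h with
  | refl x => exact ⟨hx, fun l hl => hl⟩
  | @dbl a b x y _ ih =>
    obtain ⟨hy, hR⟩ := ih hx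
    refine ⟨by omega, fun l hl => ?_⟩
    have := hR (l+1) (hl.cons (Or.inr (by omega)))
    rwa [show l + (a + 1 + b) = l + 1 + (a + b) by omega]
  | @div a b x y _ hu ih =>
    obtain ⟨hy, hR⟩ := ih hx
    refine ⟨by omega, fun l hl => ?_⟩
    have := hR (l+1) (hl.cons (Or.inl (by omega)))
    rwa [show l + (a + (b + 1)) = l + 1 + (a + b) by omega]

/-- Every positive `m ≡ 0, 1 (mod 3)` is reached from `1` in at most `10^5 (log₂ m + 1)^2` steps. -/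
theorem result (m : ℕ) (hm : 0 < m) (h : m % 3 = 0 ∨ m % 3 = 1) :
    ∃ l ≤ 100000 * (Nat.log 2 m + 1) ^ 2, ReachIn l m := by
  have h0 : m < 2^(Nat.log 2 m + 1) := Nat.lt_pow_succ_log_self (by norm_num) m
  have h1 : 1 ≤ 2^(Nat.log 2 m) := Nat.one_le_two_pow
  obtain ⟨a, b, hb, hP⟩ := reach (Nat.log 2 m) (m+1) (by omega) (by omega) (by
    rw [pow_succ] at h0
    omega)
  have ha : a ≤ 2*b := by
    obtain ⟨N, hN⟩ := hP.val
    have t1 : (2:ℤ)^a ≤ 4^b := by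
      have t2 : (2:ℤ)^a*1 ≤ 2^a*((m+1:ℕ):ℤ) := by
        refine mul_le_mul_of_nonneg_left (by push_cast; omega) (by positivity)
      have t3 : (3:ℤ)^b ≤ 4^b := pow_le_pow_left₀ (by norm_num) (by norm_num) _
      have t4 : (0:ℤ) ≤ N := Int.natCast_nonneg N
      linarith
    have t5 : 2^a ≤ 2^(2*b) := by
      rw [pow_mul]
      exact_mod_cast t1
    exact (Nat.pow_le_pow_iff_right (by norm_num)).mp t5
  have h2 := (toReach hP (by positivity)).2 0 ⟨fun _ => 1, rfl, rfl, fun i hi => by omega⟩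
  refine ⟨0 + (a + b) + 1, ?_, ReachIn.cons h2 (Or.inr (by push_cast; omega))⟩
  have : 1 ≤ (Nat.log 2 m + 1)^2 := Nat.one_le_pow _ _ (by omega)
  omega

end Pool.Agent.Results.MP_241678_nt.LogSquaredPaths
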